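import Mathlib

/-!
# Covering designs, scaled versions and multi-matchings

Definitions for problem MP_c6938d_co.
-/

namespace Pool.Agent.Lib.MP_c6938d_co

/-- `B` is a `(v, k, 2)` covering design with `d` blocks: every block `B i` is a `k`-element subset
of the `v`-element ground set `Fin v`, and any two distinct elements lie together in some block. -/
def IsCoveringDesign (v k d : ℕ) (B : Fin d → Finset (Fin v)) : Prop :=
  (∀ i, (B i).card = k) ∧ ∀ x y : Fin v, x ≠ y → ∃ i, x ∈ B i ∧ y ∈ B i

/-- The frequency `k * d / v` of a `(v, k, 2)` covering design with `d` blocks. -/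
noncomputable def freq (v k d : ℕ) : ℝ := (k : ℝ) * d / v

/-- The `d` blocks `B i` on the ground set `V` admit a multi-matching: there are sets `U i ⊆ B i`
with `|U i| = |V| / d` (that is, `d * |U i| = |V|`) which partition `V`. -/
def AdmitsMultiMatching {V : Type} [Fintype V] {d : ℕ} (B : Fin d → Finset V) : Prop :=
  ∃ U : Fin d → Finset V, (∀ i, U i ⊆ B i) ∧ (∀ i, d * (U i).card = Fintype.card V) ∧
    (∀ i j, i ≠ j → Disjoint (U i) (U j)) ∧ ∀ x, ∃ i, x ∈ U i

/-- The blocks `B i × [d]` of the scaled version, on the ground set `[v] × [d]`. -/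
def scaled {v d : ℕ} (B : Fin d → Finset (Fin v)) : Fin d → Finset (Fin v × Fin d) :=
  fun i => B i ×ˢ Finset.univ

end Pool.Agent.Lib.MP_c6938d_co
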