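import Pool.Agent.Lib.MP_c6938d_co.Strict

/-!
# A gap below the optimum: all regular fractional designs close to the optimum satisfy Hall
-/

open Finset

namespace Pool.Agent.Lib.MP_c6938d_co

section Compact

variable {α : Type*} [Fintype α] [DecidableEq α]

theorem isFD_iff (w : Finset α → ℝ) : IsFD w ↔ (∀ T, 0 ≤ w T) ∧
    (∀ S T, S ∩ T = ∅ → w S * w T = 0) ∧ ∀ x, ∑ T with x ∈ T, w T ≤ 1 := by
  constructor
  · intro h
    refine ⟨h.nonneg, fun S T hST => ?_, h.deg_le⟩
    by_contra hne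
    have hS : 0 < w S := lt_of_le_of_ne (h.nonneg S) fun h0 => hne (by rw [← h0, zero_mul])
    have hT : 0 < w T := lt_of_le_of_ne (h.nonneg T) fun h0 => hne (by rw [← h0, mul_zero])
    have := h.inter S T hS hT
    rw [hST] at this
    simp at this
  · rintro ⟨h1, h2, h3⟩
    refine ⟨h1, fun S T hS hT => ?_, h3⟩
    rw [nonempty_iff_ne_empty]
    intro h
    have := h2 S T h
    have h4 := mul_pos hS hT
    linarith

theorem isClosed_FD : IsClosed {w : Finset α → ℝ | IsFD w} := by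
  simp only [isFD_iff, Set.ofPred_and, Set.ofPred_forall]
  refine IsClosed.inter ?_ (IsClosed.inter ?_ ?_)
  · exact isClosed_iInter fun T => isClosed_le continuous_const (continuous_apply T)
  · refine isClosed_iInter fun S => isClosed_iInter fun T => isClosed_iInter fun _ => ?_
    exact isClosed_eq ((continuous_apply S).mul (continuous_apply T)) continuous_const
  · refine isClosed_iInter fun x => isClosed_le ?_ continuous_const
    exact continuous_finsetSum _ fun T _ => continuous_apply T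

theorem isCompact_FD : IsCompact {w : Finset α → ℝ | IsFD w} := by
  refine IsCompact.of_isClosed_subset
    (isCompact_univ_pi fun _ : Finset α => (isCompact_Icc : IsCompact (Set.Icc (0 : ℝ) 1)))
    isClosed_FD ?_
  intro w hw T _
  have hw : IsFD w := hw
  refine ⟨hw.nonneg T, ?_⟩
  rcases T.eq_empty_or_nonempty with h | ⟨x, hx⟩
  · have h1 := ((isFD_iff w).1 hw).2.1 T T (by rw [h]; simp)
    have : w T = 0 := by simpa using h1
    rw [this]; norm_num
  · refine le_trans ?_ (hw.deg_le x)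
    exact single_le_sum (f := w) (fun S _ => hw.nonneg S) (mem_filter.2 ⟨mem_univ T, hx⟩)

omit [DecidableEq α] in
theorem continuous_total : Continuous fun w : Finset α → ℝ => ∑ T, w T :=
  continuous_finsetSum _ fun T _ => continuous_apply T

/-- The set of regular fractional designs violating the strict Hall inequality is compact. -/
theorem isCompact_bad : IsCompact {w : Finset α → ℝ | IsFD w ∧
    (∀ x, ∑ T with x ∈ T, w T = 1) ∧ ∃ I : Finset α, I.Nonempty ∧ Iᶜ.Nonempty ∧
      (Fintype.card α : ℝ) * ∑ T with (T ∩ I).Nonempty, w T ≤ I.card * ∑ T, w T} := by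
  have h1 : {w : Finset α → ℝ | IsFD w ∧
      (∀ x, ∑ T with x ∈ T, w T = 1) ∧ ∃ I : Finset α, I.Nonempty ∧ Iᶜ.Nonempty ∧
        (Fintype.card α : ℝ) * ∑ T with (T ∩ I).Nonempty, w T ≤ I.card * ∑ T, w T} =
      {w : Finset α → ℝ | IsFD w} ∩ ({w | ∀ x, ∑ T with x ∈ T, w T = 1} ∩
        ⋃ I : {I : Finset α // I.Nonempty ∧ Iᶜ.Nonempty}, {w |
          (Fintype.card α : ℝ) * ∑ T with (T ∩ I.1).Nonempty, w T ≤ I.1.card * ∑ T, w T}) := by
    ext w
    simp only [Set.mem_ofPred_eq, Set.mem_inter_iff, Set.mem_iUnion]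
    constructor
    · rintro ⟨h, h', I, hI, hI', hv⟩
      exact ⟨h, h', ⟨I, hI, hI'⟩, hv⟩
    · rintro ⟨h, h', ⟨I, hI, hI'⟩, hv⟩
      exact ⟨h, h', I, hI, hI', hv⟩
  rw [h1]
  refine isCompact_FD.inter_right (IsClosed.inter ?_ ?_)
  · simp only [Set.ofPred_forall]
    exact isClosed_iInter fun x => isClosed_eq
      (continuous_finsetSum _ fun T _ => continuous_apply T) continuous_const
  · refine isClosed_iUnion_of_finite fun I => isClosed_le ?_ ?_
    · exact continuous_const.mul (continuous_finsetSum _ fun T _ => continuous_apply T)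
    · exact continuous_const.mul continuous_total

/-- There is a threshold `ρ > 1`, smaller than the total weight of some fractional design, above
which all regular fractional designs satisfy the strict Hall inequality. -/
theorem exists_threshold (hd : 3 ≤ Fintype.card α) : ∃ ρ : ℝ, 1 < ρ ∧
    (∃ w : Finset α → ℝ, IsFD w ∧ ρ < ∑ T, w T) ∧
    ∀ w : Finset α → ℝ, IsFD w → (∀ x, ∑ T with x ∈ T, w T = 1) → ρ ≤ ∑ T, w T →
      ∀ I : Finset α, I.Nonempty → Iᶜ.Nonempty →
        (I.card : ℝ) * ∑ T, w T < (Fintype.card α : ℝ) * ∑ T with (T ∩ I).Nonempty, w T := by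
  obtain ⟨w₀, hw₀, hmax₀⟩ := isCompact_FD (α := α).exists_isMaxOn
    ⟨fun _ => 0, ⟨fun _ => le_rfl, fun _ _ h => absurd h (lt_irrefl _), fun _ => by simp⟩⟩
    continuous_total.continuousOn
  have hw₀' : IsFD w₀ := hw₀
  have hmax : ∀ w : Finset α → ℝ, IsFD w → ∑ T, w T ≤ ∑ T, w₀ T := fun w hw => hmax₀ hw
  have hW : 3 / 2 ≤ ∑ T, w₀ T := three_halves_le hd _ hmax
  -- a bound below the maximum for violating designs
  have hM : ∃ M : ℝ, M < ∑ T, w₀ T ∧ ∀ w : Finset α → ℝ, IsFD w →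
      (∀ x, ∑ T with x ∈ T, w T = 1) → (∃ I : Finset α, I.Nonempty ∧ Iᶜ.Nonempty ∧
      (Fintype.card α : ℝ) * ∑ T with (T ∩ I).Nonempty, w T ≤ I.card * ∑ T, w T) →
      ∑ T, w T ≤ M := by
    rcases Set.eq_empty_or_nonempty {w : Finset α → ℝ | IsFD w ∧
        (∀ x, ∑ T with x ∈ T, w T = 1) ∧ ∃ I : Finset α, I.Nonempty ∧ Iᶜ.Nonempty ∧
          (Fintype.card α : ℝ) * ∑ T with (T ∩ I).Nonempty, w T ≤ I.card * ∑ T, w T} with h | h
    · refine ⟨0, by linarith, fun w h1 h2 h3 => ?_⟩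
      have : w ∈ (∅ : Set (Finset α → ℝ)) := h ▸ ⟨h1, h2, h3⟩
      exact absurd this (Set.notMem_empty _)
    · obtain ⟨w₁, ⟨h1, h2, I, hI, hI', hv⟩, hmax₁⟩ :=
        isCompact_bad.exists_isMaxOn h continuous_total.continuousOn
      refine ⟨∑ T, w₁ T, ?_, fun w h1 h2 h3 => hmax₁ ⟨h1, h2, h3⟩⟩
      by_contra hcon
      have heq : ∑ T, w₁ T = ∑ T, w₀ T := le_antisymm (hmax _ h1) (not_lt.1 hcon)
      have := strict_hall hd h1 h2 (fun w' hw' => heq ▸ hmax w' hw') I hI hI'
      linarith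
  obtain ⟨M, hM1, hM2⟩ := hM
  refine ⟨(max M 1 + ∑ T, w₀ T) / 2, ?_, ⟨w₀, hw₀', ?_⟩, ?_⟩
  · have := le_max_right M 1
    linarith
  · have : max M 1 < ∑ T, w₀ T := max_lt hM1 (by linarith)
    linarith
  · intro w h1 h2 h3 I hI hI'
    by_contra hcon
    have h4 := hM2 w h1 h2 ⟨I, hI, hI', not_lt.1 hcon⟩
    have h5 : max M 1 < ∑ T, w₀ T := max_lt hM1 (by linarith)
    have h6 := le_max_left M 1
    linarith

end Compact

end Pool.Agent.Lib.MP_c6938d_co
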