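import Mathlib

/-!
# Fractional designs and the strict Hall inequality at the optimum
-/

open Finset

namespace Pool.Agent.Lib.MP_c6938d_co

/-- A fractional design on the point set `α`: nonnegative weights on the subsets of `α`, whose
support is an intersecting family, such that every point has total weight at most `1`. -/
structure IsFD {α : Type*} [Fintype α] [DecidableEq α] (w : Finset α → ℝ) : Prop where
  nonneg : ∀ T, 0 ≤ w T
  inter : ∀ S T, 0 < w S → 0 < w T → (S ∩ T).Nonempty
  deg_le : ∀ x, ∑ T with x ∈ T, w T ≤ 1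

open Classical in
/-- An indexed fractional design on at most `|α|` points has total weight at most the maximum. -/
theorem total_le_of_mem {α γ ι : Type*} [Fintype α] [DecidableEq α] [Fintype γ] [Fintype ι]
    (W : ℝ) (hmax : ∀ w : Finset α → ℝ, IsFD w → ∑ T, w T ≤ W)
    (mem : ι → γ → Prop) (u : ι → ℝ) (hu : ∀ i, 0 ≤ u i)
    (hint : ∀ i i', 0 < u i → 0 < u i' → ∃ x, mem i x ∧ mem i' x)
    (hdeg : ∀ x, ∑ i, (if mem i x then u i else 0) ≤ 1)
    (hcard : Fintype.card γ ≤ Fintype.card α) : ∑ i, u i ≤ W := by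
  obtain ⟨f⟩ := Function.Embedding.nonempty_of_card_le hcard
  set T : ι → Finset α := fun i => (univ.filter (mem i)).map f with hT
  have hmemT : ∀ i x, f x ∈ T i ↔ mem i x := by
    intro i x
    simp [hT]
  have hw : IsFD (fun S : Finset α => ∑ i with T i = S, u i) := by
    refine ⟨fun S => sum_nonneg fun i _ => hu i, ?_, ?_⟩
    · intro S S' hS hS'
      obtain ⟨i, hi, hi0⟩ := exists_lt_of_sum_lt (s := univ.filter fun i => T i = S)
        (f := fun _ => (0 : ℝ)) (g := u) (by simpa using hS)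
      obtain ⟨i', hi', hi0'⟩ := exists_lt_of_sum_lt (s := univ.filter fun i => T i = S')
        (f := fun _ => (0 : ℝ)) (g := u) (by simpa using hS')
      obtain ⟨x, hx, hx'⟩ := hint i i' hi0 hi0'
      simp only [mem_filter, mem_univ, true_and] at hi hi'
      refine ⟨f x, ?_⟩
      rw [mem_inter, ← hi, ← hi']
      exact ⟨(hmemT i x).2 hx, (hmemT i' x).2 hx'⟩
    · intro y
      have h1 : ∑ S with y ∈ S, ∑ i with T i = S, u i = ∑ i, if y ∈ T i then u i else 0 := by
        have e1 : ∑ S with y ∈ S, ∑ i with T i = S, u i =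
            ∑ S, ∑ i, if T i = S ∧ y ∈ S then u i else 0 := by
          rw [sum_filter]
          refine sum_congr rfl fun S _ => ?_
          by_cases hy : y ∈ S
          · simp [hy, sum_filter]
          · simp [hy]
        rw [e1, sum_comm]
        refine sum_congr rfl fun i _ => ?_
        rw [sum_eq_single (T i)]
        · simp
        · intro S _ hS
          rw [if_neg]
          exact fun h => hS h.1.symm
        · simp
      rw [h1]
      by_cases hy : ∃ x, f x = y
      · obtain ⟨x, rfl⟩ := hy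
        refine le_trans (le_of_eq ?_) (hdeg x)
        refine sum_congr rfl fun i _ => ?_
        simp only [hmemT]
      · have : ∀ i, y ∉ T i := by
          intro i hi
          simp only [hT, mem_map] at hi
          obtain ⟨x, _, hx⟩ := hi
          exact hy ⟨x, hx⟩
        simp [this]
  have := hmax _ hw
  have h2 : ∑ S, ∑ i with T i = S, u i = ∑ i, u i := sum_fiberwise univ T u
  linarith

/-- The numerical heart of the argument. -/
theorem arith_key {d s j R : ℕ} {W a b L : ℝ} (hjd : j + s = d) (hj0 : 0 < j) (hs0 : 0 < s)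
    (hab : a + b = W) (ha : 1 ≤ a) (hviol : d * a ≤ s * W)
    (hL : a * b * j ≤ L * j - L ^ 2) (hR : R * b ≤ j - L) (hRW : W < R) :
    0 < b ∧ R + (4 * a ^ 2 - 3 * a) < s := by
  have hj : (0 : ℝ) < j := by exact_mod_cast hj0
  have hs : (0 : ℝ) < s := by exact_mod_cast hs0
  have hd : (d : ℝ) = j + s := by exact_mod_cast hjd.symm
  have hR0 : (0 : ℝ) ≤ R := Nat.cast_nonneg R
  have ha0 : 0 < a := by linarith
  have hW : 0 < W := by
    rw [hd] at hviol
    have : 0 < s * W := lt_of_lt_of_le (by positivity) hviol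
    exact (mul_pos_iff_of_pos_left hs).1 this
  have hbd : j * W ≤ b * d := by
    have : b = W - a := by linarith
    rw [this, sub_mul]
    nlinarith
  have hd0 : (0 : ℝ) < d := by rw [hd]; positivity
  have hb : 0 < b := by
    have : 0 < b * d := lt_of_lt_of_le (by positivity) hbd
    exact (mul_pos_iff_of_pos_right hd0).1 this
  refine ⟨hb, ?_⟩
  -- `4 a b ≤ j`
  have h4 : 4 * a * b ≤ j := by
    have h1 : L * j - L ^ 2 ≤ j ^ 2 / 4 := by nlinarith [sq_nonneg (j - 2 * L)]
    have h2 : (4 * a * b) * j ≤ j * j := by nlinarith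
    exact le_of_mul_le_mul_right h2 hj
  have h4' : 4 * a * W ≤ d := by
    have h1 : 4 * a * b * W ≤ b * d := le_trans (mul_le_mul_of_nonneg_right h4 hW.le) hbd
    have h2 : (4 * a * W) * b ≤ d * b := by nlinarith
    exact le_of_mul_le_mul_right h2 hb
  -- `(R + a) b < j`
  have hq : 0 < (j - L) := by
    have hRpos : (0 : ℝ) < R := lt_trans hW hRW
    exact lt_of_lt_of_le (mul_pos hRpos hb) hR
  have hL1 : 0 < L := by
    have h1 : 0 < a * b * j := by positivity
    have h2 : 0 < L * (j - L) := by nlinarith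
    exact (mul_pos_iff_of_pos_right hq).1 h2
  have h5 : a * b < L := by
    have h1 : a * b * j < L * j := by nlinarith [sq_nonneg L, pow_pos hL1 2]
    exact lt_of_mul_lt_mul_right h1 hj.le
  have h6 : (R + a) * W < d := by
    have h1 : (R + a) * b < j := by nlinarith
    have h2 : (R + a) * b * W < b * d := lt_of_lt_of_le (mul_lt_mul_of_pos_right h1 hW) hbd
    have h3 : ((R + a) * W) * b < d * b := by nlinarith
    exact lt_of_mul_lt_mul_right h3 hb.le
  -- conclusions for `s`
  have h7 : 4 * a ^ 2 ≤ s := by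
    have h1 : (4 * a ^ 2) * W ≤ s * W := by nlinarith
    exact le_of_mul_le_mul_right h1 hW
  have h8 : a * (R + a) < s := by
    have h1 : (a * (R + a)) * W < s * W := by nlinarith
    exact lt_of_mul_lt_mul_right h1 hW.le
  rcases lt_or_ge (R : ℝ) (3 * a) with h | h
  · nlinarith
  · nlinarith

theorem arith_card {s R : ℕ} {W a b : ℝ} (hab : a + b = W) (ha : 1 ≤ a) (hb : 0 < b)
    (hRW : W < R) (hs : R + (4 * a ^ 2 - 3 * a) < s) :
    (⌈2 * a⌉₊).choose 2 + (⌊b⌋₊ + 1) ≤ s := by
  have hN : ((⌈2 * a⌉₊ : ℕ) : ℝ) < 2 * a + 1 := Nat.ceil_lt_add_one (by linarith)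
  have hb1 : ((⌊b⌋₊ : ℕ) : ℝ) ≤ b := Nat.floor_le hb.le
  rcases lt_or_ge a (3 / 2) with h | h
  · have hN3 : ⌈2 * a⌉₊ ≤ 3 := by
      rw [Nat.ceil_le]
      push_cast
      linarith
    have hc : (⌈2 * a⌉₊).choose 2 ≤ 3 := by
      have := Nat.choose_le_choose 2 hN3
      simpa using this
    have h1 : ((⌊b⌋₊ + 1 : ℕ) : ℝ) < (R : ℕ) := by
      push_cast
      linarith
    have h1' : ⌊b⌋₊ + 1 < R := by exact_mod_cast h1
    have h2 : ((R + 1 : ℕ) : ℝ) < s := by
      push_cast
      nlinarith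
    have h2' : R + 1 < s := by exact_mod_cast h2
    omega
  · have hc : (((⌈2 * a⌉₊).choose 2 : ℕ) : ℝ) ≤ 2 * a ^ 2 + a := by
      rw [Nat.cast_choose_two]
      have h0 : (0 : ℝ) ≤ (⌈2 * a⌉₊ : ℕ) := Nat.cast_nonneg _
      have h3 : (2 * a : ℝ) ≤ (⌈2 * a⌉₊ : ℕ) := Nat.le_ceil _
      nlinarith
    have h1 : (((⌈2 * a⌉₊).choose 2 + (⌊b⌋₊ + 1) : ℕ) : ℝ) < ((s + 1 : ℕ) : ℝ) := by
      push_cast
      nlinarith
    have h1' : (⌈2 * a⌉₊).choose 2 + (⌊b⌋₊ + 1) < s + 1 := by exact_mod_cast h1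
    omega


section Basic

variable {α : Type*} [Fintype α] [DecidableEq α] {w : Finset α → ℝ}

theorem three_halves_le (hd : 3 ≤ Fintype.card α) (W : ℝ)
    (hmax : ∀ w' : Finset α → ℝ, IsFD w' → ∑ T, w' T ≤ W) : 3 / 2 ≤ W := by
  have h := total_le_of_mem (γ := Fin 3) (ι := Fin 3) W hmax (fun i x => i ≠ x) (fun _ => 1 / 2)
    (fun _ => by norm_num) ?_ ?_ (by simpa using hd)
  · rw [sum_const, card_univ, Fintype.card_fin, nsmul_eq_mul] at h
    norm_num at h ⊢
    exact h
  · intro i i' _ _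
    revert i i'
    decide
  · intro x
    rw [Fin.sum_univ_three]
    fin_cases x <;> norm_num [Fin.ext_iff]

omit [Fintype α] in
/-- exchanging sums: `∑ x ∈ A, ∑ T ∈ F, [x ∈ T] w T = ∑ T ∈ F, w T |A ∩ T|` -/
theorem sum_deg (A : Finset α) (F : Finset (Finset α)) (w : Finset α → ℝ) :
    ∑ x ∈ A, ∑ T ∈ F, (if x ∈ T then w T else 0) = ∑ T ∈ F, w T * ((A ∩ T).card : ℝ) := by
  rw [sum_comm]
  refine sum_congr rfl fun T _ => ?_
  rw [← sum_filter, sum_const, nsmul_eq_mul, mul_comm, filter_mem_eq_inter]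

theorem W_lt_card (hw : IsFD w) (hreg : ∀ x, ∑ T with x ∈ T, w T = 1) (hW : 3 / 2 ≤ ∑ T, w T)
    {T : Finset α} (hT : 0 < w T) : ∑ S, w S < T.card := by
  have hTne : T.Nonempty := by simpa using hw.inter T T hT hT
  have h2 : 2 ≤ T.card := by
    by_contra h
    have h1 : T.card = 1 := by
      have := hTne.card_pos
      omega
    obtain ⟨x, rfl⟩ := card_eq_one.1 h1
    have h3 : ∑ S, w S = ∑ S with x ∈ S, w S := by
      rw [sum_filter]
      refine sum_congr rfl fun S _ => ?_
      split_ifs with hx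
      · rfl
      · by_contra hS
        have hS' : 0 < w S := lt_of_le_of_ne (hw.nonneg S) (Ne.symm hS)
        obtain ⟨y, hy⟩ := hw.inter S {x} hS' hT
        simp only [mem_inter, mem_singleton] at hy
        exact hx (hy.2 ▸ hy.1)
    rw [h3, hreg x] at hW
    norm_num at hW
  have h3 : (T.card : ℝ) = ∑ S, w S * ((T ∩ S).card : ℝ) := by
    rw [← sum_deg T univ w]
    have : ∀ x ∈ T, ∑ S, (if x ∈ S then w S else 0) = 1 := by
      intro x _
      rw [← sum_filter]
      exact hreg x
    rw [sum_congr rfl this]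
    simp
  rw [h3]
  refine sum_lt_sum ?_ ⟨T, mem_univ T, ?_⟩
  · intro S _
    rcases (hw.nonneg S).eq_or_lt with h | h
    · rw [← h]; simp
    · have h4 : 1 ≤ (T ∩ S).card := (hw.inter T S hT h).card_pos
      have h5 : (1 : ℝ) ≤ ((T ∩ S).card : ℝ) := by exact_mod_cast h4
      nlinarith
  · rw [inter_self]
    have h5 : (2 : ℝ) ≤ (T.card : ℝ) := by exact_mod_cast h2
    nlinarith

end Basic

end Pool.Agent.Lib.MP_c6938d_co
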