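import Pool.Agent.Lib.MP_c6938d_co.Defs
import Pool.Agent.Lib.MP_c6938d_co.Gap

/-!
# From fractional designs to covering designs and multi-matchings
-/

open Finset

namespace Pool.Agent.Lib.MP_c6938d_co

/-! ### Hall's theorem -/

/-- The Hall inequalities give a multi-matching of the scaled version. -/
theorem admits_of_hall {v d : ℕ} (B : Fin d → Finset (Fin v))
    (hall : ∀ J : Finset (Fin d),
      d * (univ.filter fun x : Fin v => ∀ i, x ∈ B i → i ∈ J).card ≤ J.card * v) :
    AdmitsMultiMatching (scaled B) := by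
  classical
  -- elements `(x, c)`, slots `(i, l)`
  let t : Fin v × Fin d → Finset (Fin d × Fin v) := fun p =>
    (univ.filter fun i => p.1 ∈ B i) ×ˢ univ
  have hcond : ∀ s : Finset (Fin v × Fin d), s.card ≤ (s.biUnion t).card := by
    intro s
    set J : Finset (Fin d) := s.biUnion fun p => univ.filter fun i => p.1 ∈ B i with hJ
    have h1 : s.biUnion t = J ×ˢ univ := by
      ext ⟨i, l⟩
      simp [t, hJ]
    have h2 : s ⊆ (univ.filter fun x : Fin v => ∀ i, x ∈ B i → i ∈ J) ×ˢ univ := by
      intro p hp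
      rw [mem_product, mem_filter]
      refine ⟨⟨mem_univ _, fun i hi => ?_⟩, mem_univ _⟩
      rw [hJ, mem_biUnion]
      exact ⟨p, hp, by simpa using hi⟩
    have h3 := card_le_card h2
    rw [card_product, card_univ, Fintype.card_fin] at h3
    rw [h1, card_product, card_univ, Fintype.card_fin]
    have h4 := hall J
    rw [mul_comm] at h4
    exact h3.trans h4
  obtain ⟨f, hf, hft⟩ := (Finset.all_card_le_biUnion_card_iff_exists_injective t).1 hcond
  have hbij : Function.Bijective f := by
    rw [Fintype.bijective_iff_injective_and_card]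
    refine ⟨hf, ?_⟩
    simp [mul_comm]
  refine ⟨fun i => univ.filter fun p => (f p).1 = i, ?_, ?_, ?_, ?_⟩
  · intro i p hp
    rw [mem_filter] at hp
    have h1 := hft p
    simp only [t, mem_product, mem_filter, mem_univ, true_and, and_true] at h1
    simp only [scaled, mem_product, mem_univ, and_true]
    rw [← hp.2]
    exact h1
  · intro i
    have h1 : (univ.filter fun p => (f p).1 = i).card = v := by
      have h2 : (univ.filter fun p => (f p).1 = i).card =
          (({i} : Finset (Fin d)) ×ˢ (univ : Finset (Fin v))).card := by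
        refine card_bij (fun p _ => f p) ?_ ?_ ?_
        · intro p hp
          rw [mem_filter] at hp
          rw [mem_product, mem_singleton]
          exact ⟨hp.2, mem_univ _⟩
        · intro p _ q _ h
          exact hf h
        · intro q hq
          obtain ⟨p, hp⟩ := hbij.2 q
          refine ⟨p, ?_, hp⟩
          simp only [mem_product, mem_singleton, mem_univ, and_true] at hq
          rw [mem_filter, hp]
          exact ⟨mem_univ _, hq⟩
      rw [h2]
      simp
    rw [h1]
    simp [mul_comm]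
  · intro i j hij
    rw [disjoint_left]
    intro p hp hp'
    rw [mem_filter] at hp hp'
    exact hij (hp.2.symm.trans hp'.2)
  · intro p
    exact ⟨(f p).1, by simp⟩

/-! ### From covering designs to fractional designs -/

section ToWeights

variable {v k d : ℕ} (B : Fin d → Finset (Fin v))

/-- The type of an element: the set of blocks containing it. -/
def typ (x : Fin v) : Finset (Fin d) := univ.filter fun i => x ∈ B i

/-- The weights of a covering design. -/
noncomputable def wt (k : ℕ) (T : Finset (Fin d)) : ℝ :=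
  ((univ.filter fun x : Fin v => typ B x = T).card : ℝ) / k

theorem sum_wt (s : Finset (Finset (Fin d))) :
    ∑ T ∈ s, wt B k T = ((univ.filter fun x : Fin v => typ B x ∈ s).card : ℝ) / k := by
  unfold wt
  rw [← sum_div]
  congr 1
  rw [← Nat.cast_sum]
  congr 1
  rw [card_eq_sum_card_fiberwise (f := typ B) (t := s)]
  · refine sum_congr rfl fun T hT => ?_
    congr 1
    ext x
    simp only [mem_filter, mem_univ, true_and]
    constructor
    · rintro rfl
      exact ⟨hT, rfl⟩
    · exact fun h => h.2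
  · intro x hx
    simpa using hx

theorem isFD_wt (hv : 2 ≤ v) (hk : 0 < k) (hB : IsCoveringDesign v k d B) :
    IsFD (wt B k) ∧ (∀ i, ∑ T with i ∈ T, wt B k T = 1) ∧ ∑ T, wt B k T = v / k := by
  have hk' : (0 : ℝ) < k := by exact_mod_cast hk
  have hdeg : ∀ i, ∑ T with i ∈ T, wt B k T = 1 := by
    intro i
    rw [sum_wt]
    have h1 : (univ.filter fun x : Fin v => typ B x ∈ univ.filter fun T => i ∈ T) = B i := by
      ext x
      simp [typ]
    rw [h1, hB.1 i, div_self hk'.ne']
  refine ⟨⟨fun T => by unfold wt; positivity, ?_, fun i => (hdeg i).le⟩, hdeg, ?_⟩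
  · intro S T hS hT
    have hex : ∀ S : Finset (Fin d), 0 < wt B k S → ∃ x, typ B x = S := by
      intro S hS
      by_contra h
      push Not at h
      have : (univ.filter fun x : Fin v => typ B x = S) = ∅ := by
        rw [filter_eq_empty_iff]
        exact fun x _ => h x
      rw [wt, this] at hS
      simp at hS
    obtain ⟨x, rfl⟩ := hex S hS
    obtain ⟨y, rfl⟩ := hex T hT
    by_cases hxy : x = y
    · subst hxy
      rw [inter_self]
      have : Nontrivial (Fin v) := Fin.nontrivial_iff_two_le.2 hv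
      obtain ⟨z, hz⟩ := exists_ne x
      obtain ⟨i, hi, _⟩ := hB.2 x z hz.symm
      exact ⟨i, by simpa [typ] using hi⟩
    · obtain ⟨i, hi, hi'⟩ := hB.2 x y hxy
      exact ⟨i, by simpa [typ] using ⟨hi, hi'⟩⟩
  · rw [sum_wt]
    simp

end ToWeights

/-- In a covering design with `v / k` at least the threshold, the scaled version admits a
multi-matching. -/
theorem admits_of_threshold {v k d : ℕ} (hv : 2 ≤ v) (hk : 0 < k)
    (B : Fin d → Finset (Fin v)) (hB : IsCoveringDesign v k d B) (ρ : ℝ)
    (hρ : ∀ w : Finset (Fin d) → ℝ, IsFD w → (∀ x, ∑ T with x ∈ T, w T = 1) → ρ ≤ ∑ T, w T →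
      ∀ I : Finset (Fin d), I.Nonempty → Iᶜ.Nonempty →
        (I.card : ℝ) * ∑ T, w T < (Fintype.card (Fin d) : ℝ) * ∑ T with (T ∩ I).Nonempty, w T)
    (h : ρ ≤ (v : ℝ) / k) : AdmitsMultiMatching (scaled B) := by
  obtain ⟨h1, h2, h3⟩ := isFD_wt B hv hk hB
  have hk' : (0 : ℝ) < k := by exact_mod_cast hk
  refine admits_of_hall B fun J => ?_
  rcases J.eq_empty_or_nonempty with hJ | hJ
  · subst hJ
    have : (univ.filter fun x : Fin v => ∀ i, x ∈ B i → i ∈ (∅ : Finset (Fin d))) = ∅ := by
      rw [filter_eq_empty_iff]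
      intro x _ hx
      have : Nontrivial (Fin v) := Fin.nontrivial_iff_two_le.2 hv
      obtain ⟨z, hz⟩ := exists_ne x
      obtain ⟨i, hi, _⟩ := hB.2 x z hz.symm
      exact absurd (hx i hi) (notMem_empty i)
    rw [this]
    simp
  rcases Jᶜ.eq_empty_or_nonempty with hJ' | hJ'
  · have hJu : J = univ := by
      rw [← compl_eq_empty_iff]
      exact hJ'
    subst hJu
    simp
  · have hall := hρ (wt B k) h1 h2 (by rw [h3]; exact h) Jᶜ hJ' (by rw [compl_compl]; exact hJ)
    rw [h3, sum_wt, Fintype.card_fin] at hall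
    set A : Finset (Fin v) := univ.filter fun x : Fin v => ∀ i, x ∈ B i → i ∈ J with hA
    have hcompl : (univ.filter fun x : Fin v =>
        typ B x ∈ univ.filter fun T => (T ∩ Jᶜ).Nonempty) = Aᶜ := by
      ext x
      simp only [mem_filter, mem_univ, true_and, hA, mem_compl, not_forall]
      constructor
      · rintro ⟨i, hi⟩
        rw [mem_inter, mem_compl] at hi
        exact ⟨i, by simpa [typ] using hi.1, hi.2⟩
      · rintro ⟨i, hi, hiJ⟩
        exact ⟨i, by rw [mem_inter, mem_compl]; exact ⟨by simpa [typ] using hi, hiJ⟩⟩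
    rw [hcompl] at hall
    have e1 : ((Jᶜ.card : ℕ) : ℝ) = d - J.card := by
      have := card_add_card_compl J
      rw [Fintype.card_fin] at this
      have h' : ((J.card + Jᶜ.card : ℕ) : ℝ) = (d : ℝ) := by exact_mod_cast this
      push_cast at h'
      linarith
    have e2 : ((Aᶜ.card : ℕ) : ℝ) = v - A.card := by
      have := card_add_card_compl A
      rw [Fintype.card_fin] at this
      have h' : ((A.card + Aᶜ.card : ℕ) : ℝ) = (v : ℝ) := by exact_mod_cast this
      push_cast at h'
      linarith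
    rw [e1, e2] at hall
    have h5 : ((d : ℝ) - J.card) * v < d * (v - A.card) := by
      have h6 : ((d : ℝ) - J.card) * (v / k) = (((d : ℝ) - J.card) * v) / k := by ring
      have h7 : (d : ℝ) * ((v - A.card) / k) = (d * (v - A.card)) / k := by ring
      rw [h6, h7, div_lt_div_iff_of_pos_right hk'] at hall
      exact hall
    have h8 : (d : ℝ) * A.card ≤ J.card * v := by nlinarith
    exact_mod_cast h8

/-! ### Rounding -/

theorem two_le_card_of_pos {α : Type*} [Fintype α] [DecidableEq α] {w : Finset α → ℝ}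
    (hw : IsFD w) (hW : 1 < ∑ T, w T) {T : Finset α} (hT : 0 < w T) : 2 ≤ T.card := by
  have hTne : T.Nonempty := by simpa using hw.inter T T hT hT
  by_contra h
  have h1 : T.card = 1 := by
    have := hTne.card_pos
    omega
  obtain ⟨x, rfl⟩ := card_eq_one.1 h1
  have h3 : ∑ S, w S = ∑ S with x ∈ S, w S := by
    rw [sum_filter]
    refine sum_congr rfl fun S _ => ?_
    split_ifs with hx
    · rfl
    · by_contra hS
      have hS' : 0 < w S := lt_of_le_of_ne (hw.nonneg S) (Ne.symm hS)
      obtain ⟨y, hy⟩ := hw.inter S {x} hS' hT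
      simp only [mem_inter, mem_singleton] at hy
      exact hx (hy.2 ▸ hy.1)
  have := hw.deg_le x
  linarith

/-- A fractional design of total weight more than `ρ > 1` gives a covering design with distinct
blocks and `ρ k ≤ v`. -/
theorem exists_design {d : ℕ} (hd : 3 ≤ d) {ρ : ℝ} (hρ : 1 < ρ) {w : Finset (Fin d) → ℝ}
    (hw : IsFD w) (hW : ρ < ∑ T, w T) :
    ∃ v k, 2 ≤ v ∧ 2 ≤ k ∧ ∃ B : Fin d → Finset (Fin v), Function.Injective B ∧
      IsCoveringDesign v k d B ∧ ρ * k ≤ v := by
  classical
  set W : ℝ := ∑ T, w T with hWdef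
  set c : ℝ := ((Fintype.card (Finset (Fin d)) : ℕ) : ℝ) with hc
  obtain ⟨n, hn⟩ := exists_nat_ge ((c + ρ * d) / (W - ρ))
  have hWρ : 0 < W - ρ := by linarith
  rw [div_le_iff₀ hWρ] at hn
  have hc0 : 0 ≤ c := Nat.cast_nonneg _
  have hd0 : (3 : ℝ) ≤ d := by exact_mod_cast hd
  -- the ground set
  let X := Σ T : Finset (Fin d), Fin ⌊n * w T⌋₊
  have hcardX : n * W - c ≤ (Fintype.card X : ℝ) := by
    have h1 : Fintype.card X = ∑ T : Finset (Fin d), ⌊n * w T⌋₊ := by
      rw [Fintype.card_sigma]
      simp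
    rw [h1]
    push_cast
    have h2 : ∀ T ∈ (univ : Finset (Finset (Fin d))), n * w T - 1 ≤ (⌊n * w T⌋₊ : ℝ) :=
      fun T _ => (Nat.sub_one_lt_floor _).le
    have h3 := sum_le_sum h2
    rw [sum_sub_distrib, ← mul_sum] at h3
    simp only [sum_const, card_univ, nsmul_eq_mul, mul_one] at h3
    exact h3
  let A₀ : Fin d → Finset X := fun i => univ.filter fun p => i ∈ p.1
  have hA₀ : ∀ i, (A₀ i).card ≤ n := by
    intro i
    have h1 : (A₀ i).card = ∑ T with i ∈ T, ⌊n * w T⌋₊ := by
      have h2 : A₀ i = (univ.filter fun T : Finset (Fin d) => i ∈ T).sigma fun _ => univ := by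
        ext p
        have h3 : p ∈ A₀ i ↔ i ∈ p.1 := by simp [A₀]
        rw [h3]
        exact ⟨fun h => Finset.mem_sigma.2 ⟨by simpa using h, mem_univ _⟩,
          fun h => by simpa using (Finset.mem_sigma.1 h).1⟩
      rw [h2, card_sigma]
      simp
    have h3 : ((A₀ i).card : ℝ) ≤ n := by
      rw [h1]
      push_cast
      have h4 : ∀ T ∈ univ.filter fun T : Finset (Fin d) => i ∈ T,
          (⌊n * w T⌋₊ : ℝ) ≤ n * w T := fun T _ =>
        Nat.floor_le (mul_nonneg (Nat.cast_nonneg _) (hw.nonneg T))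
      have h5 := sum_le_sum h4
      rw [← mul_sum] at h5
      have h6 := hw.deg_le i
      have h7 : (n : ℝ) * ∑ T with i ∈ T, w T ≤ n * 1 :=
        mul_le_mul_of_nonneg_left h6 (Nat.cast_nonneg _)
      linarith
    exact_mod_cast h3
  have hnX : n ≤ Fintype.card X := by
    have h1 : (n : ℝ) ≤ Fintype.card X := by
      have h2 : 0 ≤ (n : ℝ) := Nat.cast_nonneg _
      have h3 : 0 ≤ ρ * d := by positivity
      nlinarith
    exact_mod_cast h1
  choose A hA₀A hAcard using fun i => exists_superset_card_eq (hA₀ i) hnX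
  -- blocks
  let C : Fin d → Finset (X ⊕ Fin d) := fun i => (A i).disjSum (univ.erase i)
  have hCl : ∀ i p, (Sum.inl p : X ⊕ Fin d) ∈ C i ↔ p ∈ A i := by
    intro i p; simp [C]
  have hCr : ∀ i j, (Sum.inr j : X ⊕ Fin d) ∈ C i ↔ j ≠ i := by
    intro i j; simp [C]
  have hCcard : ∀ i, (C i).card = n + (d - 1) := by
    intro i
    simp only [C]
    rw [card_disjSum, hAcard i, card_erase_of_mem (mem_univ i), card_univ, Fintype.card_fin]
  have hpos : ∀ p : X, 0 < w p.1 := by
    rintro ⟨T, l⟩
    have h1 : 0 < ⌊n * w T⌋₊ := lt_of_le_of_lt (Nat.zero_le _) l.2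
    have h2 : 1 ≤ n * w T := by
      have := Nat.floor_pos.1 h1
      exact this
    rcases (hw.nonneg T).eq_or_lt with h | h
    · rw [← h] at h2; norm_num at h2
    · exact h
  have hmemA : ∀ (p : X) i, i ∈ p.1 → p ∈ A i := by
    intro p i hi
    exact hA₀A i (by simpa [A₀] using hi)
  have hthree : ∀ a b : Fin d, ∃ i : Fin d, i ≠ a ∧ i ≠ b := by
    intro a b
    have : ({a, b} : Finset (Fin d)).card < (univ : Finset (Fin d)).card := by
      rw [card_univ, Fintype.card_fin]
      have := card_le_two (a := a) (b := b)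
      omega
    obtain ⟨i, _, hi⟩ := exists_mem_notMem_of_card_lt_card this
    simp only [mem_insert, mem_singleton, not_or] at hi
    exact ⟨i, hi.1, hi.2⟩
  have hcov : ∀ p q : X ⊕ Fin d, p ≠ q → ∃ i, p ∈ C i ∧ q ∈ C i := by
    have hlr : ∀ (p : X) (j : Fin d), ∃ i, (Sum.inl p : X ⊕ Fin d) ∈ C i ∧
        (Sum.inr j : X ⊕ Fin d) ∈ C i := by
      intro p j
      have h1 : 2 ≤ p.1.card := two_le_card_of_pos hw (by linarith) (hpos p)
      obtain ⟨i, hi, hij⟩ := exists_mem_ne (by omega : 1 < p.1.card) j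
      exact ⟨i, (hCl i p).2 (hmemA p i hi), (hCr i j).2 hij.symm⟩
    rintro (p | a) (q | b) hpq
    · obtain ⟨i, hi⟩ := hw.inter p.1 q.1 (hpos p) (hpos q)
      rw [mem_inter] at hi
      exact ⟨i, (hCl i p).2 (hmemA p i hi.1), (hCl i q).2 (hmemA q i hi.2)⟩
    · exact hlr p b
    · obtain ⟨i, h1, h2⟩ := hlr q a
      exact ⟨i, h2, h1⟩
    · obtain ⟨i, h1, h2⟩ := hthree a b
      exact ⟨i, (hCr i a).2 h1.symm, (hCr i b).2 h2.symm⟩
  have hinj : Function.Injective C := by
    intro i j hij
    by_contra hne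
    have h1 : (Sum.inr i : X ⊕ Fin d) ∈ C j := (hCr j i).2 hne
    rw [← hij] at h1
    exact (hCr i i).1 h1 rfl
  -- transport to `Fin v`
  let e : (X ⊕ Fin d) ≃ Fin (Fintype.card (X ⊕ Fin d)) := Fintype.equivFin _
  have hcardV : Fintype.card (X ⊕ Fin d) = Fintype.card X + d := by
    rw [Fintype.card_sum, Fintype.card_fin]
  refine ⟨Fintype.card (X ⊕ Fin d), n + (d - 1), by omega, by omega,
    fun i => (C i).map e.toEmbedding, ?_, ⟨?_, ?_⟩, ?_⟩
  · intro i j hij
    exact hinj (map_injective _ hij)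
  · intro i
    rw [card_map, hCcard]
  · intro x y hxy
    obtain ⟨i, h1, h2⟩ := hcov (e.symm x) (e.symm y) (fun h => hxy (e.symm.injective h))
    exact ⟨i, by simpa using h1, by simpa using h2⟩
  · rw [hcardV]
    push_cast
    have h1 : ((d - 1 : ℕ) : ℝ) = d - 1 := by
      rw [Nat.cast_sub (by omega)]
      simp
    rw [h1]
    nlinarith

/-- **Main theorem.** -/
theorem main_theorem (d : ℕ) (hd : 3 ≤ d) : ∃ β : ℝ, 0 < β ∧
    (∃ v k : ℕ, 2 ≤ v ∧ 2 ≤ k ∧ ∃ B : Fin d → Finset (Fin v), Function.Injective B ∧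
      IsCoveringDesign v k d B ∧ freq v k d ≤ β) ∧
    ∀ v k : ℕ, 2 ≤ v → 2 ≤ k → ∀ B : Fin d → Finset (Fin v), IsCoveringDesign v k d B →
      freq v k d ≤ β → AdmitsMultiMatching (scaled B) := by
  obtain ⟨ρ, hρ1, ⟨w, hw, hwρ⟩, hρ⟩ :=
    exists_threshold (α := Fin d) (by rw [Fintype.card_fin]; exact hd)
  have hρ0 : 0 < ρ := by linarith
  have hd0 : (0 : ℝ) < d := by
    have : 0 < d := by omega
    exact_mod_cast this
  refine ⟨d / ρ, by positivity, ?_, ?_⟩
  · obtain ⟨v, k, hv, hk, B, hinj, hB, hle⟩ := exists_design hd hρ1 hw hwρ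
    refine ⟨v, k, hv, hk, B, hinj, hB, ?_⟩
    have hv0 : (0 : ℝ) < v := by
      have : 0 < v := by omega
      exact_mod_cast this
    rw [freq, div_le_div_iff₀ hv0 hρ0]
    nlinarith
  · intro v k hv hk B hB hfreq
    have hv0 : (0 : ℝ) < v := by
      have : 0 < v := by omega
      exact_mod_cast this
    have hk0 : (0 : ℝ) < k := by
      have : 0 < k := by omega
      exact_mod_cast this
    refine admits_of_threshold hv (by omega) B hB ρ hρ ?_
    rw [freq, div_le_div_iff₀ hv0 hρ0] at hfreq
    rw [le_div_iff₀ hk0]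
    have h1 : (ρ * k) * d ≤ v * d := by nlinarith
    exact le_of_mul_le_mul_right h1 hd0

end Pool.Agent.Lib.MP_c6938d_co
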