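import Pool.Agent.Lib.MP_c6938d_co.Key

set_option linter.unusedTactic false

open Finset

namespace Pool.Agent.Lib.MP_c6938d_co

section Ineq

variable {α : Type*} [Fintype α] [DecidableEq α] {w : Finset α → ℝ}

/-- The numerical consequences of a violation of the strict Hall inequality at `I`. -/
theorem violation_ineq (hd : 3 ≤ Fintype.card α) (hw : IsFD w)
    (hreg : ∀ x, ∑ T with x ∈ T, w T = 1)
    (hmax : ∀ w' : Finset α → ℝ, IsFD w' → ∑ T, w' T ≤ ∑ T, w T)
    (I : Finset α) (hI : I.Nonempty) (hI' : Iᶜ.Nonempty)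
    (hviol : (Fintype.card α : ℝ) * ∑ T with (T ∩ I).Nonempty, w T ≤ I.card * ∑ T, w T) :
    1 ≤ ∑ T with (T ∩ I).Nonempty, w T ∧ 0 < ∑ T with ¬ (T ∩ I).Nonempty, w T ∧
    (⌈2 * ∑ T with (T ∩ I).Nonempty, w T⌉₊).choose 2 +
      (⌊∑ T with ¬ (T ∩ I).Nonempty, w T⌋₊ + 1) ≤ I.card := by
  have hW : 3 / 2 ≤ ∑ T, w T := three_halves_le hd _ hmax
  set W : ℝ := ∑ T, w T with hWdef
  set H : Finset (Finset α) := univ.filter fun T => (T ∩ I).Nonempty with hH
  set F : Finset (Finset α) := univ.filter fun T => ¬ (T ∩ I).Nonempty with hF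
  set a : ℝ := ∑ T ∈ H, w T with ha
  set b : ℝ := ∑ T ∈ F, w T with hb
  have hab : a + b = W := sum_filter_add_sum_filter_not univ _ w
  have ha1 : 1 ≤ a := by
    obtain ⟨x, hx⟩ := hI
    rw [← hreg x]
    refine sum_le_sum_of_subset_of_nonneg ?_ fun T _ _ => hw.nonneg T
    intro T hT
    rw [mem_filter] at hT
    rw [hH, mem_filter]
    exact ⟨mem_univ _, ⟨x, mem_inter.2 ⟨hT.2, hx⟩⟩⟩
  -- degrees
  set lam : α → ℝ := fun x => ∑ T ∈ H, if x ∈ T then w T else 0 with hlam
  have hlamF : ∀ x, ∑ T ∈ F, (if x ∈ T then w T else 0) = 1 - lam x := by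
    intro x
    have h1 : ∑ T ∈ H, (if x ∈ T then w T else 0) + ∑ T ∈ F, (if x ∈ T then w T else 0) = 1 := by
      rw [hH, hF, sum_filter_add_sum_filter_not, ← sum_filter]
      exact hreg x
    rw [hlam]
    linarith
  set L : ℝ := ∑ x ∈ Iᶜ, lam x with hLdef
  have hFI : ∀ T ∈ F, Iᶜ ∩ T = T := by
    intro T hT
    rw [hF, mem_filter, not_nonempty_iff_eq_empty] at hT
    rw [inter_eq_right]
    intro x hx
    rw [mem_compl]
    intro hxI
    have : x ∈ T ∩ I := mem_inter.2 ⟨hx, hxI⟩
    rw [hT.2] at this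
    simp at this
  have hR : ((⌊W⌋₊ + 1 : ℕ) : ℝ) * b ≤ (Iᶜ.card : ℝ) - L := by
    have h1 : (Iᶜ.card : ℝ) - L = ∑ T ∈ F, w T * ((Iᶜ ∩ T).card : ℝ) := by
      rw [← sum_deg, sum_congr rfl fun x _ => hlamF x, sum_sub_distrib]
      simp [hLdef]
    rw [h1, hb, mul_sum]
    refine sum_le_sum fun T hT => ?_
    rw [hFI T hT]
    rcases (hw.nonneg T).eq_or_lt with h | h
    · rw [← h]; simp
    · rw [mul_comm]
      refine mul_le_mul_of_nonneg_left ?_ h.le
      have h2 := W_lt_card hw hreg hW h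
      have h3 : ⌊W⌋₊ < T.card := (Nat.floor_lt (by linarith)).2 h2
      exact_mod_cast h3
  have hprod : a * b ≤ ∑ x ∈ Iᶜ, lam x * (1 - lam x) := by
    have h1 : ∑ x ∈ Iᶜ, lam x * (1 - lam x) =
        ∑ T ∈ H, ∑ S ∈ F, w T * w S * (((Iᶜ ∩ T) ∩ S).card : ℝ) := by
      have h2 : ∀ x ∈ Iᶜ, lam x * (1 - lam x) =
          ∑ T ∈ H, ∑ S ∈ F, (if x ∈ T then w T else 0) * (if x ∈ S then w S else 0) := by
        intro x _
        rw [← hlamF x, hlam, sum_mul_sum]
      rw [sum_congr rfl h2, sum_comm]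
      refine sum_congr rfl fun T _ => ?_
      rw [sum_comm]
      refine sum_congr rfl fun S _ => ?_
      rw [← filter_mem_eq_inter (s := Iᶜ) (t := T), ← filter_mem_eq_inter (t := S), filter_filter,
        ← nsmul_eq_mul', ← sum_const, sum_filter]
      refine sum_congr rfl fun x _ => ?_
      by_cases h1 : x ∈ T <;> by_cases h2 : x ∈ S <;> simp [h1, h2]
    rw [h1, ha, hb, sum_mul_sum]
    refine sum_le_sum fun T _ => sum_le_sum fun S hS => ?_
    rcases (hw.nonneg T).eq_or_lt with h | h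
    · rw [← h]; simp
    rcases (hw.nonneg S).eq_or_lt with h' | h'
    · rw [← h']; simp
    have h3 : Iᶜ ∩ T ∩ S = T ∩ S := by
      rw [inter_comm Iᶜ T, inter_assoc, hFI S hS]
    have h4 : 1 ≤ (Iᶜ ∩ T ∩ S).card := by
      rw [h3]
      exact (hw.inter T S h h').card_pos
    have h5 : (1 : ℝ) ≤ ((Iᶜ ∩ T ∩ S).card : ℝ) := by exact_mod_cast h4
    nlinarith [mul_pos h h']
  have hL : a * b * (Iᶜ.card : ℝ) ≤ L * (Iᶜ.card : ℝ) - L ^ 2 := by
    have h1 : L ^ 2 ≤ (Iᶜ.card : ℝ) * ∑ x ∈ Iᶜ, lam x ^ 2 := sq_sum_le_card_mul_sum_sq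
    have h2 : ∑ x ∈ Iᶜ, lam x * (1 - lam x) = L - ∑ x ∈ Iᶜ, lam x ^ 2 := by
      rw [hLdef, ← sum_sub_distrib]
      refine sum_congr rfl fun x _ => ?_
      ring
    rw [h2] at hprod
    have h3 : (0 : ℝ) ≤ (Iᶜ.card : ℝ) := Nat.cast_nonneg _
    nlinarith
  have hRW : W < ((⌊W⌋₊ + 1 : ℕ) : ℝ) := by
    push_cast
    exact Nat.lt_floor_add_one W
  have hjd : Iᶜ.card + I.card = Fintype.card α := by
    rw [add_comm, card_add_card_compl]
  obtain ⟨hb0, hs⟩ := arith_key hjd hI'.card_pos hI.card_pos hab ha1 hviol hL hR hRW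
  exact ⟨ha1, hb0, arith_card hab ha1 hb0 hRW hs⟩

end Ineq


/-- A positive lower bound for the positive values of a function on a finite type. -/
theorem exists_pos_lower_bound {β : Type*} [Fintype β] (f : β → ℝ) :
    ∃ c : ℝ, 0 < c ∧ ∀ x, 0 < f x → c ≤ f x := by
  classical
  by_cases h : (univ.filter fun x => 0 < f x).Nonempty
  · obtain ⟨x, hx, hmin⟩ := exists_min_image _ f h
    rw [mem_filter] at hx
    exact ⟨f x, hx.2, fun y hy => hmin y (by simpa using hy)⟩
  · refine ⟨1, one_pos, fun x hx => ?_⟩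
    exact absurd ⟨x, by simpa using hx⟩ h

section Construction

variable {α : Type*} [Fintype α] [DecidableEq α] {w : Finset α → ℝ}

open Classical in
/-- **Key lemma.** At a regular fractional design of maximum total weight the Hall inequality is
strict: the weight of the types hitting `I` is more than `|I| / |α|` times the total weight. -/
theorem strict_hall (hd : 3 ≤ Fintype.card α) (hw : IsFD w)
    (hreg : ∀ x, ∑ T with x ∈ T, w T = 1)
    (hmax : ∀ w' : Finset α → ℝ, IsFD w' → ∑ T, w' T ≤ ∑ T, w T)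
    (I : Finset α) (hI : I.Nonempty) (hI' : Iᶜ.Nonempty) :
    (I.card : ℝ) * ∑ T, w T < (Fintype.card α : ℝ) * ∑ T with (T ∩ I).Nonempty, w T := by
  by_contra hcon
  push Not at hcon
  obtain ⟨ha1, hb0, hcard⟩ := violation_ineq hd hw hreg hmax I hI hI' hcon
  have hab : ∑ T with (T ∩ I).Nonempty, w T + ∑ T with ¬ (T ∩ I).Nonempty, w T = ∑ T, w T :=
    sum_filter_add_sum_filter_not univ _ w
  set a : ℝ := ∑ T with (T ∩ I).Nonempty, w T with ha
  set b : ℝ := ∑ T with ¬ (T ∩ I).Nonempty, w T with hb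
  set N : ℕ := ⌈2 * a⌉₊ with hNdef
  set e : ℕ := ⌊b⌋₊ + 1 with hedef
  have hN : 2 * a ≤ N := Nat.le_ceil _
  have hN2 : 2 ≤ N := by
    have : (2 : ℝ) ≤ N := by linarith
    exact_mod_cast this
  have hN0 : (0 : ℝ) < N := by linarith
  have he : b < e := by
    rw [hedef]; push_cast; exact Nat.lt_floor_add_one b
  have he0 : (0 : ℝ) < e := lt_trans hb0 he
  set lam : α → ℝ := fun x => ∑ T with (T ∩ I).Nonempty, if x ∈ T then w T else 0 with hlam
  have hlam0 : ∀ x, 0 ≤ lam x := fun x => sum_nonneg fun T _ => by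
    split_ifs
    · exact hw.nonneg T
    · exact le_rfl
  have hlamF : ∀ x, ∑ T with ¬ (T ∩ I).Nonempty, (if x ∈ T then w T else 0) = 1 - lam x := by
    intro x
    have h1 : ∑ T with (T ∩ I).Nonempty, (if x ∈ T then w T else 0) +
        ∑ T with ¬ (T ∩ I).Nonempty, (if x ∈ T then w T else 0) = 1 := by
      rw [sum_filter_add_sum_filter_not, ← sum_filter]
      exact hreg x
    rw [hlam]
    linarith
  obtain ⟨c, hc0, hc⟩ := exists_pos_lower_bound lam
  have hbe : 0 < 1 - b / e := by
    rw [sub_pos, div_lt_one he0]; exact he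
  have hac : 0 < a + c := by linarith
  set θ : ℝ := min (1 / 2) ((1 - b / e) / (a + c)) with hθ
  have hθ0 : 0 < θ := lt_min (by norm_num) (div_pos hbe hac)
  have hθ1 : θ ≤ 1 / 2 := min_le_left _ _
  have hθ2 : θ * (a + c) ≤ 1 - b / e := by
    have : θ ≤ (1 - b / e) / (a + c) := min_le_right _ _
    rwa [le_div_iff₀ hac] at this
  -- the new fractional design
  let mem : (Finset α × Fin e) ⊕ (Finset α × Fin N) ⊕ Fin N ⊕ Unit →
      {x : α // x ∉ I} ⊕ {z : Finset (Fin N) // z.card = 2} ⊕ Fin e → Prop := fun i p =>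
    match i, p with
    | .inl q, .inl x => x.1 ∈ q.1
    | .inl _, .inr (.inl _) => False
    | .inl q, .inr (.inr e1) => e1 = q.2
    | .inr (.inl q), .inl x => x.1 ∈ q.1
    | .inr (.inl q), .inr (.inl z) => q.2 ∈ z.1
    | .inr (.inl _), .inr (.inr _) => False
    | .inr (.inr (.inl _)), .inl _ => False
    | .inr (.inr (.inl i)), .inr (.inl z) => i ∈ z.1
    | .inr (.inr (.inl _)), .inr (.inr _) => True
    | .inr (.inr (.inr _)), .inl x => 0 < lam x.1
    | .inr (.inr (.inr _)), .inr (.inl _) => False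
    | .inr (.inr (.inr _)), .inr (.inr _) => True
  let u : (Finset α × Fin e) ⊕ (Finset α × Fin N) ⊕ Fin N ⊕ Unit → ℝ := fun i =>
    match i with
    | .inl q => if (q.1 ∩ I).Nonempty then 0 else w q.1 / e
    | .inr (.inl q) => if (q.1 ∩ I).Nonempty then (1 - θ) * w q.1 / N else 0
    | .inr (.inr (.inl _)) => θ * a / N
    | .inr (.inr (.inr _)) => θ * c
  have hu : ∀ i, 0 ≤ u i := by
    rintro (q | q | i | i)
    · simp only [u]
      split_ifs
      · exact le_rfl
      · exact div_nonneg (hw.nonneg _) he0.le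
    · simp only [u]
      split_ifs
      · exact div_nonneg (mul_nonneg (by linarith) (hw.nonneg _)) hN0.le
      · exact le_rfl
    · simp only [u]; positivity
    · simp only [u]; positivity
  -- supports
  have hposF : ∀ q : Finset α × Fin e, 0 < u (.inl q) → 0 < w q.1 ∧ ¬ (q.1 ∩ I).Nonempty := by
    intro q hq
    simp only [u] at hq
    split_ifs at hq with h
    · exact absurd hq (lt_irrefl _)
    · refine ⟨?_, h⟩
      rcases (hw.nonneg q.1).eq_or_lt with h' | h'
      · rw [← h'] at hq; simp at hq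
      · exact h'
  have hposH : ∀ q : Finset α × Fin N, 0 < u (.inr (.inl q)) →
      0 < w q.1 ∧ (q.1 ∩ I).Nonempty := by
    intro q hq
    simp only [u] at hq
    split_ifs at hq with h
    · refine ⟨?_, h⟩
      rcases (hw.nonneg q.1).eq_or_lt with h' | h'
      · rw [← h'] at hq; simp at hq
      · exact h'
    · exact absurd hq (lt_irrefl _)
  -- stars intersect
  have hstar : ∀ i i' : Fin N, ∃ z : {z : Finset (Fin N) // z.card = 2}, i ∈ z.1 ∧ i' ∈ z.1 := by
    intro i i'
    by_cases h : i = i'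
    · subst h
      have : ∃ k : Fin N, k ≠ i := by
        have : Nontrivial (Fin N) := Fin.nontrivial_iff_two_le.2 hN2
        exact exists_ne i
      obtain ⟨k, hk⟩ := this
      exact ⟨⟨{i, k}, card_pair hk.symm⟩, by simp, by simp⟩
    · exact ⟨⟨{i, i'}, card_pair h⟩, by simp, by simp⟩
  -- there is a positive type not hitting `I`
  obtain ⟨T₀, hT₀, hT₀I⟩ : ∃ T, 0 < w T ∧ ¬ (T ∩ I).Nonempty := by
    by_contra h
    push Not at h
    have : b = 0 := by
      rw [hb]
      refine sum_eq_zero fun T hT => ?_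
      rw [mem_filter] at hT
      rcases (hw.nonneg T).eq_or_lt with h' | h'
      · exact h'.symm
      · exact absurd (h T h') (by simpa using hT.2)
    linarith
  have hFmeet : ∀ S T, 0 < w S → 0 < w T → ¬ (S ∩ I).Nonempty →
      ∃ x : {x : α // x ∉ I}, x.1 ∈ S ∧ x.1 ∈ T := by
    intro S T hS hT hSI
    obtain ⟨x, hx⟩ := hw.inter S T hS hT
    rw [mem_inter] at hx
    refine ⟨⟨x, fun hxI => hSI ⟨x, mem_inter.2 ⟨hx.1, hxI⟩⟩⟩, hx.1, hx.2⟩
  have hlampos : ∀ T, 0 < w T → (T ∩ I).Nonempty → ∀ x ∈ T, 0 < lam x := by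
    intro T hT hTI x hx
    have h1 : (if x ∈ T then w T else 0) ≤ lam x :=
      single_le_sum (f := fun T => if x ∈ T then w T else 0)
        (fun S _ => by
          split_ifs
          · exact hw.nonneg S
          · exact le_rfl)
        (mem_filter.2 ⟨mem_univ T, hTI⟩)
    rw [if_pos hx] at h1
    linarith
  have he1 : 0 < e := by rw [hedef]; omega
  let e₀ : Fin e := ⟨0, he1⟩
  have hint : ∀ i i', 0 < u i → 0 < u i' → ∃ x, mem i x ∧ mem i' x := by
    have key : ∀ i i', 0 < u i → 0 < u i' →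
        (∃ x, mem i x ∧ mem i' x) ∨ (∃ x, mem i' x ∧ mem i x) → ∃ x, mem i x ∧ mem i' x := by
      rintro i i' _ _ (h | ⟨x, h1, h2⟩)
      · exact h
      · exact ⟨x, h2, h1⟩
    rintro (q | q | i | i) (q' | q' | i' | i') hi hi'
    · obtain ⟨h1, h2⟩ := hposF q hi
      obtain ⟨h3, h4⟩ := hposF q' hi'
      obtain ⟨x, hx1, hx2⟩ := hFmeet _ _ h1 h3 h2
      exact ⟨.inl x, hx1, hx2⟩
    · obtain ⟨h1, h2⟩ := hposF q hi
      obtain ⟨h3, h4⟩ := hposH q' hi'
      obtain ⟨x, hx1, hx2⟩ := hFmeet _ _ h1 h3 h2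
      exact ⟨.inl x, hx1, hx2⟩
    · exact ⟨.inr (.inr q.2), rfl, trivial⟩
    · exact ⟨.inr (.inr q.2), rfl, trivial⟩
    · obtain ⟨h1, h2⟩ := hposH q hi
      obtain ⟨h3, h4⟩ := hposF q' hi'
      obtain ⟨x, hx1, hx2⟩ := hFmeet _ _ h3 h1 h4
      exact ⟨.inl x, hx2, hx1⟩
    · obtain ⟨z, hz, hz'⟩ := hstar q.2 q'.2
      exact ⟨.inr (.inl z), hz, hz'⟩
    · obtain ⟨z, hz, hz'⟩ := hstar q.2 i'
      exact ⟨.inr (.inl z), hz, hz'⟩
    · obtain ⟨h1, h2⟩ := hposH q hi
      obtain ⟨x, hx1, hx2⟩ := hFmeet _ _ hT₀ h1 hT₀I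
      exact ⟨.inl x, hx2, hlampos _ h1 h2 _ hx2⟩
    · exact ⟨.inr (.inr q'.2), trivial, rfl⟩
    · obtain ⟨z, hz, hz'⟩ := hstar i q'.2
      exact ⟨.inr (.inl z), hz, hz'⟩
    · obtain ⟨z, hz, hz'⟩ := hstar i i'
      exact ⟨.inr (.inl z), hz, hz'⟩
    · exact ⟨.inr (.inr e₀), trivial, trivial⟩
    · exact ⟨.inr (.inr q'.2), trivial, rfl⟩
    · obtain ⟨h1, h2⟩ := hposH q' hi'
      obtain ⟨x, hx1, hx2⟩ := hFmeet _ _ hT₀ h1 hT₀I
      exact ⟨.inl x, hlampos _ h1 h2 _ hx2, hx2⟩
    · exact ⟨.inr (.inr e₀), trivial, trivial⟩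
    · exact ⟨.inr (.inr e₀), trivial, trivial⟩
  have hcardγ : Fintype.card ({x : α // x ∉ I} ⊕ {z : Finset (Fin N) // z.card = 2} ⊕ Fin e) ≤
      Fintype.card α := by
    rw [Fintype.card_sum, Fintype.card_sum, Fintype.card_fin, Fintype.card_finset_len,
      Fintype.card_fin, Fintype.card_subtype_compl]
    have h1 : Fintype.card {x // x ∈ I} = I.card := by simp
    rw [h1]
    have h2 : I.card ≤ Fintype.card α := card_le_univ I
    omega
  have hdeg : ∀ x, ∑ i, (if mem i x then u i else 0) ≤ 1 := by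
    rintro (x | z | e1)
    · rw [Fintype.sum_sum_type, Fintype.sum_sum_type, Fintype.sum_sum_type]
      simp only [mem, u]
      have s1 : ∑ q : Finset α × Fin e, (if x.1 ∈ q.1 then
          (if (q.1 ∩ I).Nonempty then 0 else w q.1 / e) else 0) = 1 - lam x.1 := by
        rw [← hlamF x.1, Fintype.sum_prod_type, sum_filter]
        refine sum_congr rfl fun T _ => ?_
        simp only [sum_const, card_univ, Fintype.card_fin, nsmul_eq_mul]
        split_ifs <;> first | (simp; done) | field_simp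
      have s2 : ∑ q : Finset α × Fin N, (if x.1 ∈ q.1 then
          (if (q.1 ∩ I).Nonempty then (1 - θ) * w q.1 / N else 0) else 0) =
            (1 - θ) * lam x.1 := by
        rw [hlam, Fintype.sum_prod_type]
        simp only
        rw [mul_sum, sum_filter]
        refine sum_congr rfl fun T _ => ?_
        simp only [sum_const, card_univ, Fintype.card_fin, nsmul_eq_mul]
        split_ifs <;> first | (simp; done) | field_simp
      rw [s1, s2]
      simp only [if_false, sum_const_zero, zero_add, univ_unique, sum_singleton]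
      split_ifs with h
      · have := hc x.1 h
        nlinarith
      · have : lam x.1 = 0 := le_antisymm (not_lt.1 h) (hlam0 _)
        rw [this]; linarith
    · rw [Fintype.sum_sum_type, Fintype.sum_sum_type, Fintype.sum_sum_type]
      simp only [mem, u]
      have s2 : ∑ q : Finset α × Fin N, (if q.2 ∈ z.1 then
          (if (q.1 ∩ I).Nonempty then (1 - θ) * w q.1 / N else 0) else 0) =
            2 * ((1 - θ) * a / N) := by
        rw [Fintype.sum_prod_type_right]
        simp only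
        have h1 : ∀ i : Fin N, ∑ T : Finset α, (if i ∈ z.1 then
            (if (T ∩ I).Nonempty then (1 - θ) * w T / N else 0) else 0) =
              if i ∈ z.1 then (1 - θ) * a / N else 0 := by
          intro i
          split_ifs
          · rw [← sum_filter, ha, mul_sum, sum_div]
          · simp
        rw [sum_congr rfl fun i _ => h1 i, ← sum_filter, sum_const, filter_mem_eq_inter,
          univ_inter, z.2, nsmul_eq_mul]
        push_cast
        ring
      have s3 : ∑ i : Fin N, (if i ∈ z.1 then θ * a / N else 0) = 2 * (θ * a / N) := by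
        rw [← sum_filter, sum_const, filter_mem_eq_inter, univ_inter, z.2, nsmul_eq_mul]
        push_cast
        ring
      rw [s2, s3]
      simp only [if_false, sum_const_zero, zero_add, add_zero]
      have : 2 * ((1 - θ) * a / N) + 2 * (θ * a / N) = 2 * a / N := by ring
      rw [this, div_le_one hN0]
      exact hN
    · rw [Fintype.sum_sum_type, Fintype.sum_sum_type, Fintype.sum_sum_type]
      simp only [mem, u]
      have s1 : ∑ q : Finset α × Fin e, (if e1 = q.2 then
          (if (q.1 ∩ I).Nonempty then 0 else w q.1 / e) else 0) = b / e := by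
        rw [Fintype.sum_prod_type, hb, sum_div, sum_filter]
        refine sum_congr rfl fun T _ => ?_
        simp only
        rw [sum_ite_eq]
        by_cases h : (T ∩ I).Nonempty <;> simp [h]
      rw [s1]
      simp only [if_false, if_true, sum_const_zero, zero_add, univ_unique, card_singleton,
        sum_const, card_univ, Fintype.card_fin, nsmul_eq_mul, Nat.cast_one, one_mul]
      have : (N : ℝ) * (θ * a / N) = θ * a := by field_simp
      rw [this]
      linarith
  have htot : ∑ i, u i = ∑ T, w T + θ * c := by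
    rw [Fintype.sum_sum_type, Fintype.sum_sum_type, Fintype.sum_sum_type]
    simp only [u]
    have s1 : ∑ q : Finset α × Fin e, (if (q.1 ∩ I).Nonempty then 0 else w q.1 / e) = b := by
      rw [Fintype.sum_prod_type, hb, sum_filter]
      refine sum_congr rfl fun T _ => ?_
      simp only [sum_const, card_univ, Fintype.card_fin, nsmul_eq_mul]
      split_ifs <;> first | (simp; done) | field_simp
    have s2 : ∑ q : Finset α × Fin N, (if (q.1 ∩ I).Nonempty then (1 - θ) * w q.1 / N else 0) =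
        (1 - θ) * a := by
      rw [Fintype.sum_prod_type, ha, mul_sum, sum_filter]
      refine sum_congr rfl fun T _ => ?_
      simp only [sum_const, card_univ, Fintype.card_fin, nsmul_eq_mul]
      split_ifs <;> first | (simp; done) | field_simp
    rw [s1, s2]
    simp only [univ_unique, card_singleton, sum_const, card_univ, Fintype.card_fin, nsmul_eq_mul,
      Nat.cast_one, one_mul]
    have : (N : ℝ) * (θ * a / N) = θ * a := by field_simp
    rw [this]
    linarith
  have := total_le_of_mem (∑ T, w T) hmax mem u hu hint hdeg hcardγ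
  rw [htot] at this
  have hpos : 0 < θ * c := mul_pos hθ0 hc0
  linarith

end Construction

end Pool.Agent.Lib.MP_c6938d_co
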